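import Pool.Agent.Helper62.NT.Goals

/-!
Project NT (captain helper62), packet JAM: James' space.
-/

set_option autoImplicit false

noncomputable section

namespace Pool.Agent.Helper36.NT.JAM

open Filter Topology Pool.Agent.Helper62.NT
open scoped ENNReal

/-- the index set -/
abbrev Ci : Type := ℕ × {p : ℕ → ℕ // Monotone p}

/-- the ambient space -/
abbrev EE : Type := lp (fun c : Ci => EuclideanSpace ℝ (Fin c.1)) ∞

/-- the increments -/
def inc (a : ℕ → ℝ) (c : Ci) : EuclideanSpace ℝ (Fin c.1) :=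
  WithLp.toLp 2 fun i : Fin c.1 => a (c.2.1 (i + 1)) - a (c.2.1 i)

lemma norm_inc (a : ℕ → ℝ) (c : Ci) : ‖inc a c‖ = Real.sqrt (qs a c.1 c.2.1) := by
  rw [EuclideanSpace.norm_eq]
  congr 1
  unfold qs
  rw [Finset.sum_range]
  apply Finset.sum_congr rfl
  intro i _
  simp [inc]

lemma bv (hV : S_VBAS) (a : ℕ →₀ ℝ) : BV a := by
  obtain ⟨-, -, -, -, -, -, -, -, -, h⟩ := hV
  obtain ⟨K, hK⟩ : ∃ K : ℕ, ∀ t ∈ a.support, t < K := by
    refine ⟨a.support.sup id + 1, fun t ht => ?_⟩
    have := Finset.le_sup (f := id) ht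
    simp only [id] at this
    omega
  refine h a K fun t ht => ?_
  by_contra hne
  have := hK t (Finsupp.mem_support_iff.2 hne)
  omega

lemma norm_inc_le (hV : S_VBAS) (a : ℕ →₀ ℝ) (c : Ci) : ‖inc a c‖ ≤ V a := by
  rw [norm_inc]
  have h1 := hV.2.1 a (bv hV a) c.1 c.2.1 c.2.2
  have h0 := hV.1 a
  calc Real.sqrt (qs a c.1 c.2.1) ≤ Real.sqrt (V a ^ 2) := Real.sqrt_le_sqrt h1
    _ = V a := Real.sqrt_sq h0

/-- the embedding -/
def j0 (hV : S_VBAS) : (ℕ →₀ ℝ) →ₗ[ℝ] EE where
  toFun a := ⟨inc a, memℓp_infty ⟨V a, by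
    rintro _ ⟨c, rfl⟩
    exact norm_inc_le hV a c⟩⟩
  map_add' a b := by
    apply lp.ext
    funext c
    ext i
    simp [inc]
    ring
  map_smul' r a := by
    apply lp.ext
    funext c
    ext i
    simp [inc]
    ring

lemma norm_j0 (hV : S_VBAS) (a : ℕ →₀ ℝ) : ‖j0 hV a‖ = V a := by
  rw [lp.norm_eq_ciSup]
  unfold V
  congr 1
  funext c
  exact norm_inc a c

lemma abs_zero_le (hV : S_VBAS) (a : ℕ →₀ ℝ) (t : ℕ) : |a t| ≤ V a := by
  obtain ⟨m, hm⟩ : ∃ m : ℕ, m ∉ a.support := Infinite.exists_notMem_finset _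
  have h := hV.2.2.2.2.2.2.1 a (bv hV a) t m
  rw [Finsupp.notMem_support_iff.1 hm, sub_zero] at h
  exact h

lemma inj (hV : S_VBAS) : Function.Injective (j0 hV) := by
  rw [injective_iff_map_eq_zero]
  intro a ha
  ext t
  have h := abs_zero_le hV a t
  rw [← norm_j0 hV, ha, norm_zero] at h
  have : |a t| = 0 := le_antisymm h (abs_nonneg _)
  simpa using this

/-- the value at `0` -/
lemma exists_psi (hV : S_VBAS) : ∃ ψ : StrongDual ℝ EE, ∀ a : ℕ →₀ ℝ, ψ (j0 hV a) = a 0 := by
  let e := LinearEquiv.ofInjective (j0 hV) (inj hV)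
  let g : LinearMap.range (j0 hV) →ₗ[ℝ] ℝ := (Finsupp.lapply 0) ∘ₗ e.symm.toLinearMap
  have hg : ∀ a, g (e a) = a 0 := by
    intro a
    simp [g]
  let g' : StrongDual ℝ (LinearMap.range (j0 hV)) := g.mkContinuous 1 (by
    intro y
    obtain ⟨a, rfl⟩ := e.surjective y
    rw [hg, one_mul]
    have h := abs_zero_le hV a 0
    rw [← norm_j0 hV] at h
    exact h)
  obtain ⟨ψ, hψ, -⟩ := exists_extension_norm_eq (LinearMap.range (j0 hV)) g'
  refine ⟨ψ, fun a => ?_⟩
  have h := hψ (e a)
  rw [← hg a]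
  exact h

/-- the coordinates -/
def coord (c : Ci) (i : Fin c.1) : StrongDual ℝ EE :=
  LinearMap.mkContinuous
    { toFun := fun x : EE => (x c) i
      map_add' := fun x y => by simp
      map_smul' := fun r x => by simp } 1 (by
    intro x
    rw [one_mul]
    exact (PiLp.norm_apply_le (x c) i).trans (lp.norm_apply_le_norm (by simp) x c))

lemma coord_apply (c : Ci) (i : Fin c.1) (x : EE) : coord c i x = (x c) i := rfl

/-- the indicator of `[0, n)` -/
def sn (n : ℕ) : ℕ →₀ ℝ := Finsupp.indicator (Finset.range n) fun _ _ => 1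

lemma sn_apply (n t : ℕ) : sn n t = if t < n then 1 else 0 := by
  unfold sn
  rw [Finsupp.indicator_apply]
  simp

lemma V_sn (hV : S_VBAS) (n : ℕ) : V (sn n) ≤ 1 := by
  refine hV.2.2.1 (sn n) 1 zero_le_one ?_
  intro k p hp
  rw [one_pow]
  unfold qs
  have key : ∀ k : ℕ, ∑ i ∈ Finset.range k, (sn n (p (i + 1)) - sn n (p i)) ^ 2 =
      sn n (p 0) - sn n (p k) := by
    intro k
    induction k with
    | zero => simp
    | succ k ih =>
      rw [Finset.sum_range_succ, ih]
      have h1 : p k ≤ p (k + 1) := hp (Nat.le_succ k)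
      simp only [sn_apply]
      split_ifs <;> first | omega | norm_num
  rw [key]
  simp only [sn_apply]
  split_ifs <;> norm_num

lemma mkc {F : Type} [NormedAddCommGroup F] [NormedSpace ℝ F] (g : F →ₗ[ℝ] ℝ)
    (h : ∀ f, ‖g f‖ ≤ 1 * ‖f‖) : ∃ Φ : StrongDual ℝ F, ∀ f, Φ f = g f :=
  ⟨g.mkContinuous 1 h, fun _ => rfl⟩

theorem t (hV : S_VBAS) : S_JAM := by
  classical
  let X : Submodule ℝ EE := (LinearMap.range (j0 hV)).topologicalClosure
  have hX : IsClosed (X : Set EE) := Submodule.isClosed_topologicalClosure _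
  have hsub : ∀ a, j0 hV a ∈ X := fun a =>
    Submodule.le_topologicalClosure _ (LinearMap.mem_range_self _ a)
  let j : (ℕ →₀ ℝ) →ₗ[ℝ] X := LinearMap.codRestrict X (j0 hV) hsub
  have hjv : ∀ a, ((j a : X) : EE) = j0 hV a := fun a => rfl
  have hdense : DenseRange j := by
    intro x
    rw [Metric.mem_closure_iff]
    intro ε hε
    have hx : (x : EE) ∈ closure ((LinearMap.range (j0 hV) : Submodule ℝ EE) : Set EE) := x.2
    rw [Metric.mem_closure_iff] at hx
    obtain ⟨y, ⟨a, rfl⟩, hy⟩ := hx ε hε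
    exact ⟨j a, ⟨a, rfl⟩, hy⟩
  refine ⟨X, inferInstance, inferInstance, hX.completeSpace_coe, ?_, ?_, j, hdense, ?_⟩
  · -- separable
    have h1 : TopologicalSpace.IsSeparable
        ((Submodule.span ℝ (Set.range fun n : ℕ => j0 hV (Finsupp.single n 1)) :
          Submodule ℝ EE) : Set EE) :=
      (Set.countable_range _).isSeparable.span
    have h2 : (LinearMap.range (j0 hV) : Submodule ℝ EE) =
        Submodule.span ℝ (Set.range fun n : ℕ => j0 hV (Finsupp.single n 1)) := by
      apply le_antisymm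
      · rintro _ ⟨a, rfl⟩
        rw [← Finsupp.sum_single a, Finsupp.sum, map_sum]
        apply Submodule.sum_mem
        intro n _
        have : (Finsupp.single n (a n) : ℕ →₀ ℝ) = a n • Finsupp.single n 1 := by
          rw [Finsupp.smul_single, smul_eq_mul, mul_one]
        rw [this, map_smul]
        exact Submodule.smul_mem _ _ (Submodule.subset_span ⟨n, rfl⟩)
      · rw [Submodule.span_le]
        rintro _ ⟨n, rfl⟩
        exact LinearMap.mem_range_self _ _
    rw [← h2] at h1
    have h3 : TopologicalSpace.IsSeparable (X : Set EE) := by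
      have := h1.closure
      exact this
    exact h3.separableSpace
  · -- not reflexive
    intro hsurj
    obtain ⟨ψ, hψ⟩ := exists_psi hV
    let x : ℕ → X := fun n => j (sn n)
    have hxn : ∀ n, ‖x n‖ ≤ 1 := by
      intro n
      have : ‖x n‖ = V (sn n) := norm_j0 hV (sn n)
      rw [this]
      exact V_sn hV n
    have hlim : ∀ f : StrongDual ℝ X, ∃ l : ℝ, Tendsto (fun n => f (x n)) (UU : Filter ℕ) (𝓝 l) := by
      intro f
      have hb : ∀ n, f (x n) ∈ Set.Icc (-‖f‖) ‖f‖ := by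
        intro n
        have h1 : ‖f (x n)‖ ≤ ‖f‖ := by
          calc ‖f (x n)‖ ≤ ‖f‖ * ‖x n‖ := f.le_opNorm _
            _ ≤ ‖f‖ * 1 := by gcongr; exact hxn n
            _ = ‖f‖ := mul_one _
        rw [Real.norm_eq_abs] at h1
        exact abs_le.1 h1
      have hc : IsCompact (Set.Icc (-‖f‖) ‖f‖) := isCompact_Icc
      obtain ⟨l, -, hl⟩ := hc.ultrafilter_le_nhds (UU.map fun n => f (x n)) (by
        rw [le_principal_iff, Ultrafilter.mem_coe, Ultrafilter.mem_map]
        exact Filter.mem_of_superset Filter.univ_mem fun n _ => hb n)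
      exact ⟨l, hl⟩
    choose L hL using hlim
    let Φ0 : StrongDual ℝ X →ₗ[ℝ] ℝ :=
      { toFun := L
        map_add' := fun f g => tendsto_nhds_unique (hL (f + g)) ((hL f).add (hL g))
        map_smul' := fun r f => tendsto_nhds_unique (hL (r • f)) ((hL f).const_mul r) }
    have hΦ : ∀ f, ‖Φ0 f‖ ≤ 1 * ‖f‖ := by
      intro f
      rw [one_mul]
      refine le_of_tendsto (hL f).norm (Eventually.of_forall fun n => ?_)
      calc ‖f (x n)‖ ≤ ‖f‖ * ‖x n‖ := f.le_opNorm _
        _ ≤ ‖f‖ * 1 := by gcongr; exact hxn n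
        _ = ‖f‖ := mul_one _
    obtain ⟨Φ, hΦe⟩ := mkc (F := StrongDual ℝ X) Φ0 hΦ
    obtain ⟨y, hy⟩ := hsurj Φ
    have hyf : ∀ f : StrongDual ℝ X, f y = L f := by
      intro f
      have := congrArg (fun F : StrongDual ℝ (StrongDual ℝ X) => F f) hy
      exact this.trans (hΦe f)
    have hy0 : (y : EE) = 0 := by
      apply lp.ext
      funext c
      ext i
      have h1 := hyf ((coord c i).comp X.subtypeL)
      have h2 : Tendsto (fun n => ((coord c i).comp X.subtypeL) (x n)) (UU : Filter ℕ) (𝓝 0) := by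
        have h3 : Tendsto (fun n => ((coord c i).comp X.subtypeL) (x n)) atTop (𝓝 0) := by
          refine tendsto_const_nhds.congr' ?_
          filter_upwards [eventually_gt_atTop (c.2.1 (i + 1))] with n hn
          have h5 : c.2.1 i ≤ c.2.1 (i + 1) := c.2.2 (Nat.le_succ _)
          have h4 : ((coord c i).comp X.subtypeL) (x n) =
              sn n (c.2.1 (i + 1)) - sn n (c.2.1 i) := rfl
          rw [h4, sn_apply, sn_apply, if_pos hn, if_pos (lt_of_le_of_lt h5 hn), sub_self]
        refine h3.mono_left ?_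
        rw [← Nat.cofinite_eq_atTop]
        exact Filter.hyperfilter_le_cofinite
      rw [tendsto_nhds_unique (hL _) h2] at h1
      exact h1
    have h1 := hyf (ψ.comp X.subtypeL)
    have h2 : Tendsto (fun n => (ψ.comp X.subtypeL) (x n)) (UU : Filter ℕ) (𝓝 1) := by
      have h3 : Tendsto (fun n => (ψ.comp X.subtypeL) (x n)) atTop (𝓝 1) := by
        refine tendsto_const_nhds.congr' ?_
        filter_upwards [eventually_gt_atTop 0] with n hn
        have h4 : (ψ.comp X.subtypeL) (x n) = sn n 0 := hψ (sn n)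
        rw [h4, sn_apply, if_pos hn]
      refine h3.mono_left ?_
      rw [← Nat.cofinite_eq_atTop]
      exact Filter.hyperfilter_le_cofinite
    rw [tendsto_nhds_unique (hL _) h2] at h1
    have h3 : (ψ.comp X.subtypeL) y = ψ (y : EE) := rfl
    rw [h3, hy0, map_zero] at h1
    exact zero_ne_one h1
  · intro a
    exact norm_j0 hV a

end Pool.Agent.Helper36.NT.JAM
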